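import Pool.Agent.H73.GWT.Stmts

/-! RES: the main theorem from the rows AL3, AL4, GFN. -/

set_option autoImplicit false
open Classical
namespace GWT

theorem RES_ev {G : Type*} [Group G] {k : ℕ} (φ : FreeGroup (Fin k) →* G)
    (w : List (Fin k × Bool)) :
    GWP.ev (fun s => φ (FreeGroup.mk [s])) w = φ (FreeGroup.mk w) := by
  induction w with
  | nil =>
    rw [← FreeGroup.one_eq_mk, map_one]
    rfl
  | cons s w ih =>
    have : FreeGroup.mk (s :: w) = FreeGroup.mk [s] * FreeGroup.mk w := by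
      rw [FreeGroup.mul_mk]; rfl
    rw [this, map_mul, ← ih]
    simp [GWP.ev]

theorem RES {G V : Type*} [Group G] [MulAction G V]
    (hAL3 : ∀ S : Type, AL3Stmt S G V) (hAL4 : AL4Stmt G V)
    (hGFN : ∀ (n : ℕ) (C : Code (Fin n → Bool) G V), GFNStmt C)
    {T : SimpleGraph V}
    (hT : T.IsTree) (act : ∀ (g : G) (u v : V), T.Adj u v → T.Adj (g • u) (g • v))
    {k : ℕ} (rels : Set (FreeGroup (Fin k))) (φ : FreeGroup (Fin k) →* G)
    (hφ : Function.Surjective φ) (hrels : ∀ r ∈ rels, φ r = 1)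
    (o : V) (a b : G) (hpos : 0 < T.dist o (a • o)) (hab : T.dist o (a • o) = T.dist o (b • o))
    (hal : ∀ x ∈ ({a, b} : Set G), ∀ y ∈ ({a, b} : Set G),
      T.dist (x⁻¹ • o) (y • o) = T.dist o (x • o) + T.dist o (y • o))
    (hno : ∀ g : G, g • o = o → g • a • o ≠ b • o) :
    ∃ f : List (Fin k × Bool) →. Bool,
      Partrec f ∧
      (∀ w : List (Fin k × Bool), ∀ b ∈ f w,
        (b = true ↔ FreeGroup.mk w ∈ Subgroup.normalClosure rels)) ∧
      (∃ C κ : ℝ, 0 < C ∧ 0 < κ ∧ κ < 1 ∧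
        ∀ n : ℕ, ({w : List (Fin k × Bool) | w.length = n ∧ ¬ (f w).Dom}.ncard : ℝ) ≤
          C * κ ^ n * ({w : List (Fin k × Bool) | w.length = n}.ncard : ℝ)) ∧
      Filter.Tendsto
        (fun n : ℕ =>
          ({w : List (Fin k × Bool) | w.length ≤ n ∧ (f w).Dom}.ncard : ℝ) /
            ({w : List (Fin k × Bool) | w.length ≤ n}.ncard : ℝ))
        Filter.atTop (nhds 1) := by
  have hk : 1 ≤ k := by
    by_contra hk0
    have hk0' : k = 0 := by omega
    subst hk0'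
    obtain ⟨x, hx⟩ := hφ a
    have : x = 1 := Subsingleton.elim _ _
    rw [this, map_one] at hx
    rw [← hx] at hpos
    simp at hpos
  set ℓ := T.dist o (a • o) with hℓ
  have hal' : ∀ x ∈ ({a, b} : Set G), ∀ y ∈ ({a, b} : Set G),
      T.dist (x⁻¹ • o) (y • o) = 2 * ℓ := by
    intro x hx y hy
    rw [hal x hx y hy]
    have e : ∀ z ∈ ({a, b} : Set G), T.dist o (z • o) = ℓ := by
      intro z hz
      rcases hz with rfl | rfl
      · rfl
      · exact hab.symm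
    rw [e x hx, e y hy]; ring
  obtain ⟨g1, g2, g3, g4⟩ := hAL4 T hT act o a b ℓ hpos rfl hab.symm hal' hno
  set e : Fin k × Bool → G := fun s => φ (FreeGroup.mk [s]) with he
  obtain ⟨xa, hxa⟩ := hφ a
  obtain ⟨xb, hxb⟩ := hφ b
  have hea : GWP.ev e xa.toWord = a := by
    rw [he, RES_ev, FreeGroup.mk_toWord, hxa]
  have heb : GWP.ev e xb.toWord = b := by
    rw [he, RES_ev, FreeGroup.mk_toWord, hxb]
  obtain ⟨n, C, wd, k₀, c1, c2, c3, c4, c5⟩ := hAL3 (Fin k × Bool) T hT act o (a * b) (b * a)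
    (2 * ℓ) (by omega) g1 g2 g3 g4 e (xa.toWord ++ xb.toWord) (xb.toWord ++ xa.toWord)
    (by simp [add_comm]) (by rw [GWP.ev_append, hea, heb]) (by rw [GWP.ev_append, hea, heb])
  obtain ⟨A, hA1, hA2, K, κ, hK, hκ0, hκ1, hb⟩ := hGFN n C k e wd k₀ c3 c4 c5
  have hs : ∀ w, FreeGroup.mk w ∈ Subgroup.normalClosure rels → A w := by
    intro w hw
    apply hA2
    rw [he, RES_ev]
    have hle : Subgroup.normalClosure rels ≤ φ.ker :=
      Subgroup.normalClosure_le_normal (fun r hr => hrels r hr)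
    exact hle hw
  obtain ⟨f, f1, f2, f3, f4⟩ := GWP.generic_of_exp hk rels A hA1 hs K κ hK hκ0 hκ1 hb
  exact ⟨f, f1, f2, ⟨K, κ, hK, hκ0, hκ1, f3⟩, f4⟩

end GWT
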