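import Pool.Agent.H31.GWT.PV2

set_option autoImplicit false

open Classical

namespace GWT

namespace PV1Aux

theorem prod_list_ext {α β : Type*} : ∀ (F F' : List (α × β)),
    F.map Prod.fst = F'.map Prod.fst → F.map Prod.snd = F'.map Prod.snd → F = F'
  | [], [], _, _ => rfl
  | [], _ :: _, h, _ => by simp at h
  | _ :: _, [], h, _ => by simp at h
  | f :: F, f' :: F', h1, h2 => by
    simp only [List.map_cons, List.cons.injEq] at h1 h2
    rw [prod_list_ext F F' h1.2 h2.2, Prod.ext h1.1 h2.1]

section code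

variable {ι G V : Type*} [Fintype ι] [Group G] [MulAction G V] (C : Code ι G V)

theorem fibre (h4 : INVStmt C) (w : ℕ → G) (n : ℕ) (D : List (List ι) × List ι) :
    ({l : List ι | l.length = n ∧ mask (St C w l) = D}.ncard) ≤
      Fintype.card ι ^ D.1.length := by
  have hlen : ∀ l : List ι, mask (St C w l) = D → (St C w l).1.length = D.1.length := by
    intro l hl
    rw [← hl]
    simp [mask]
  have hc : ((Finset.univ : Finset (Fin D.1.length → ι)).image (fun f => List.ofFn f)).card ≤
      Fintype.card ι ^ D.1.length := by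
    refine Finset.card_image_le.trans ?_
    rw [Finset.card_univ, Fintype.card_fun, Fintype.card_fin]
  refine le_trans ?_ hc
  rw [← Set.ncard_coe_finset]
  refine Set.ncard_le_ncard_of_injOn (fun l : List ι => (St C w l).1.map Prod.fst) ?_ ?_
      (Finset.finite_toSet _)
  · rintro l ⟨hl, hm⟩
    have hh := hlen l hm
    simp only [Finset.coe_image, Set.mem_image, Finset.coe_univ, Set.mem_univ, true_and]
    apply PV2Aux.ofn_gen
    rw [List.length_map, hh]
  · rintro l ⟨hl, hm⟩ l' ⟨hl', hm'⟩ he
    obtain ⟨i1, _⟩ := h4 w l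
    obtain ⟨j1, _⟩ := h4 w l'
    have hmm : mask (St C w l) = mask (St C w l') := hm.trans hm'.symm
    simp only [mask, Prod.mk.injEq] at hmm
    obtain ⟨m1, m2⟩ := hmm
    have hF : (St C w l).1 = (St C w l').1 := prod_list_ext _ _ he m1
    rw [← i1, ← j1, hF, m2]

end code

end PV1Aux

section code

variable {ι G V : Type*} [Fintype ι] [Group G] [MulAction G V] (C : Code ι G V)

theorem PV1 (h1 : FIBStmt ι (List (List ι) × List ι)) (h2 : SMWStmt C) (h3 : HTDStmt C)
    (h4 : INVStmt C) : PV1Stmt C := by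
  intro w n
  have hM1 : (1 : ℝ) ≤ (C.M : ℝ) := by
    have := C.M_big
    exact_mod_cast (by omega : 1 ≤ C.M)
  have hM0 : (0 : ℝ) < (C.M : ℝ) := by linarith
  refine h1 (fun l => mask (St C w l)) n
    (fun l : List ι => (1 / (C.M : ℝ)) ^ (C.d C.o (W C w l • C.o)))
    (fun D => ((C.M : ℝ) ^ 3) ^ D.1.length)
    ((16 * (C.M : ℝ) ^ 3) ^ n) (by positivity) ?_ (fun 𝓓 h𝓓 => h2 w n 𝓓 h𝓓)
  intro D _
  have e1 : GWP.wsum n (fun l : List ι =>
      @ite ℝ (mask (St C w l) = D) (Classical.propDecidable _)
        ((1 / (C.M : ℝ)) ^ (C.d C.o (W C w l • C.o))) 0) ≤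
      GWP.wsum n (fun l : List ι => (1 / (C.M : ℝ)) ^ D.1.length *
        (@ite ℝ (mask (St C w l) = D) (Classical.propDecidable _) 1 0)) := by
    apply GWP.wsum_le
    intro l _
    by_cases a : mask (St C w l) = D
    · have hh : D.1.length ≤ C.d C.o (W C w l • C.o) := by
        have e : (St C w l).1.length = D.1.length := by
          rw [← a]
          simp [mask]
        rw [← e]
        exact h3.2 w l
      simp only [a, if_true, mul_one]
      apply pow_le_pow_of_le_one (by positivity) _ hh
      rw [div_le_one hM0]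
      exact hM1
    · simp [a]
  refine e1.trans ?_
  rw [GWP.wsum_mul, ← GWP.wsum_ncard n (fun l : List ι => mask (St C w l) = D)]
  have e2 := PV1Aux.fibre C h4 w n D
  have e3 : (({l : List ι | l.length = n ∧ mask (St C w l) = D}.ncard : ℕ) : ℝ) ≤
      (((C.M : ℝ) ^ 4) ^ D.1.length) := by
    rw [C.card] at e2
    exact_mod_cast e2
  have e4 : ((C.M : ℝ) ^ 3) ^ D.1.length =
      (1 / (C.M : ℝ)) ^ D.1.length * ((C.M : ℝ) ^ 4) ^ D.1.length := by
    rw [← mul_pow]
    congr 1
    field_simp
  rw [e4]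
  exact mul_le_mul_of_nonneg_left e3 (by positivity)

end code

end GWT
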