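import Pool.Agent.H26.GWT.AL1
import Pool.Agent.H26.GWT.AL2
import Pool.Agent.H48.GWT.AL3
import Pool.Agent.H93.GWT.AL4
import Pool.Agent.H65.GWT.BLO
import Pool.Agent.H63.GWT.CPU
import Pool.Agent.H71.GWT.CT1
import Pool.Agent.H26.GWT.CT2
import Pool.Agent.H16.GWT.CT3
import Pool.Agent.H2.GWT.ENC
import Pool.Agent.H67.GWT.FDC
import Pool.Agent.H17.GWT.FIB
import Pool.Agent.H48.GWT.GFN
import Pool.Agent.H66.GWT.GST
import Pool.Agent.H49.GWT.HTD
import Pool.Agent.H50.GWT.IN1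
import Pool.Agent.H55.GWT.INV
import Pool.Agent.H70.GWT.LDC
import Pool.Agent.H86.GWT.MUN
import Pool.Agent.H17.GWT.MVA
import Pool.Agent.H2.GWT.MWT
import Pool.Agent.H44.GWT.OKT
import Pool.Agent.H25.GWT.PAS
import Pool.Agent.H54.GWT.PLY
import Pool.Agent.H34.GWT.POK
import Pool.Agent.H33.GWT.PPS
import Pool.Agent.H1.GWT.PUN
import Pool.Agent.H31.GWT.PV2
import Pool.Agent.H23.GWT.PVA
import Pool.Agent.H36.GWT.RDC
import Pool.Agent.H21.GWT.RU1
import Pool.Agent.H21.GWT.RUN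
import Pool.Agent.H67.GWT.RW1
import Pool.Agent.H40.GWT.RW2
import Pool.Agent.H3.GWT.RWB
import Pool.Agent.H62.GWT.SMW
import Pool.Agent.H93.GWT.SOU
import Pool.Agent.H45.GWT.TDC
import Pool.Agent.H14.GWT.TPT
import Pool.Agent.H51.GWT.TUN
import Pool.Agent.H73.GWT.PV1
import Pool.Agent.H73.GWT.RES

/-! All rows of the board gwt together. -/

set_option autoImplicit false
open Classical
namespace GWT

section all
variable {ι G V : Type*} [Fintype ι] [Group G] [MulAction G V] (C : Code ι G V)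

theorem aIN1 : IN1Stmt C := IN1 C
theorem aINV : INVStmt C := INV C (GST C (aIN1 C)) (OKT C) (POK C (OKT C))
theorem aMVA : MVAStmt C := MVA C (PVA C) (POK C (OKT C)) (aINV C)
theorem aMUN : MUNStmt C :=
  MUN C (LDC C (aIN1 C)) (RDC C (aIN1 C)) (PUN C (FDC C (aIN1 C))) (aINV C)
theorem aSMW : SMWStmt C := SMW C (aMVA C) (aMUN C) (MWT C) (ENC _ _ _)
theorem aHTD : HTDStmt C := HTD C (aINV C)
theorem aPV1 : PV1Stmt C := PV1 C (FIB _ _) (aSMW C) (aHTD C) (aINV C)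
theorem aPV2 : PV2Stmt C :=
  PV2 C (FIB _ _) (aSMW C) (TUN C (aHTD C) (TDC C (TPT C))) (aINV C)
theorem aRWB (S : Type*) [Fintype S] : RWBStmt C S := RWB C S (aIN1 C)
theorem aCT3 (S : Type*) [Fintype S] : CT3Stmt C S :=
  CT3 C S (RW1 C S (aRWB C S) (aPV1 C)) (RW2 C S (aRWB C S) (aPV2 C)) (CT1 C S (PAS C S))
    (CT2 C S)
theorem aSOU (B : Type*) : SOUStmt C B := SOU C (PLY C B (PPS C))
theorem aGFN : GFNStmt C :=
  GFN C (fun S _ => aCT3 C S) (fun B => aSOU C B) (fun S _ => RUN S (RU1 S) (BLO S))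
    (fun S => BLO S) CPU

end all

end GWT
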