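import Pool.Agent.H73.GWT.Basic
import Pool.Agent.H55.GWP.DEC

/-!
Project GWT (MP_213ba5_lc, hand-in TreePatterns): the rows.

Each row `XXX` is a `def XXXStmt : Prop` below with its proof on paper.  File
`Pool/Agent/H<k>/GWT/XXX.lean`, `import Pool.Agent.H73.GWT.Stmts`, namespace `GWT`,
`theorem XXX (…) (h1 : YYYStmt …) … : XXXStmt …`, rows of column `needs` as hypotheses.

Proved already in `Basic.lean`: `dcomm, dtri, dzero, Bt.symm, UNQ, EXI, ORD, CAT, cen_spec, CEN1,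
CEN2, CEN3, GOO, SID, Code.ds, Code.bs, W_append, full_append_acc`; and the word-sum library
`GWP.wsum_*` (H55/GWP/WSA.lean), `GWP.ev_*` (WSB.lean), `GWP.generic_of_exp` (DEC.lean).

`Bt T x u y` means `d(x,u) + d(u,y) = d(x,y)`.  Lists of letters are newest first.
-/

set_option autoImplicit false

open Classical

namespace GWT

section code

variable {ι G V : Type*} [Fintype ι] [Group G] [MulAction G V] (C : Code ι G V)

/-! ### Geometry of one step -/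

/-- **IN1.** The vertices `c_s o` are different, the vertices `c_s⁻¹ o` are different, and
distances of powers.
Proof. (1) `p3` with `g = 1`.  (2) `g = c_t c_s⁻¹`: `g o = c_t c_t⁻¹ o = o` and
`g c_s o = c_t o`; `p3`.  (3) `4Λ = d(o, c⁴o) ≤ d(o, c²o) + d(c²o, c⁴o) = 2 d(o, c²o)` and
`d(o, c²o) ≤ 2Λ`.  (4) `4Λ ≤ d(o, c³ o) + d(c³o, c⁴o) = d(o, c³o) + Λ`, `d(o, c³o) ≤ 3Λ`. -/
def IN1Stmt : Prop :=
  (∀ s t : ι, C.c s • C.o = C.c t • C.o → s = t) ∧
  (∀ s t : ι, (C.c s)⁻¹ • C.o = (C.c t)⁻¹ • C.o → s = t) ∧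
  (∀ s : ι, C.d C.o ((C.c s) ^ 2 • C.o) = 2 * C.Λ) ∧
  (∀ s : ι, C.d C.o ((C.c s) ^ 3 • C.o) = 3 * C.Λ)

/-- **GST** (good step). Apply `GOO` of Basic.lean with `x = g o`, `p_i = g c_s^i o`,
`z = g c_s⁴ u o` (`Code.ds`, `IN1`; for `hr`: multiply `¬ RB` by `g c_s⁴`, `c_s⁴ c_s⁻¹ = c_s³`). -/
def GSTStmt : Prop :=
  ∀ (g u : G) (s : ι), ¬ LB C g s → ¬ RB C s u →
    Bt C.T C.o (g • C.c s • C.o) ((g * C.c s ^ 4 * u) • C.o) ∧
    Bt C.T C.o (g • (C.c s) ^ 2 • C.o) ((g * C.c s ^ 4 * u) • C.o) ∧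
    C.d C.o (g • (C.c s) ^ 2 • C.o) = C.d C.o (g • C.c s • C.o) + C.Λ ∧
    C.d C.o (g • C.c s • C.o) + 2 * C.Λ ≤ C.d C.o ((g * C.c s ^ 4 * u) • C.o) ∧
    ∀ p : V, Bt C.T C.o p (g • C.o) → C.d C.o p + C.Λ ≤ C.d C.o (g • C.o) →
      Bt C.T C.o p ((g * C.c s ^ 4 * u) • C.o) ∧ C.d C.o p ≤ C.d C.o (g • C.c s • C.o)

/-- **LDC** (left decoding). (1) Both `g c_x o` and `g c_y o` are the vertex of `[g o, o]` at
distance `Λ` from `g o` (`d(g o, g c_x o) = Λ` by `d1`; `UNQ`), so `c_x o = c_y o`.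
(2) `g = m c_t⁴ v`, `g' = m' c_t⁴ v`; `p = v⁻¹ c_t⁻² o = g⁻¹ (m c_t² o) = g'⁻¹ (m' c_t² o)`.
As `d(m c_t² o, g o) ≥ Λ` and both `m c_t² o` and `g c_x o` lie on `[g o, o]`, `ORD` gives
`g c_x o ∈ [g o, m c_t² o]`, i.e. `c_x o ∈ [o, p]` at distance `Λ`; the same for `c_y o`; `UNQ`. -/
def LDCStmt : Prop :=
  (∀ (g : G) (x y : ι), LB C g x → LB C g y → x = y) ∧
  (∀ (m m' v : G) (t x y : ι),
    Bt C.T C.o (m • (C.c t) ^ 2 • C.o) ((m * C.c t ^ 4 * v) • C.o) →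
    C.d C.o (m • (C.c t) ^ 2 • C.o) + C.Λ ≤ C.d C.o ((m * C.c t ^ 4 * v) • C.o) →
    Bt C.T C.o (m' • (C.c t) ^ 2 • C.o) ((m' * C.c t ^ 4 * v) • C.o) →
    C.d C.o (m' • (C.c t) ^ 2 • C.o) + C.Λ ≤ C.d C.o ((m' * C.c t ^ 4 * v) • C.o) →
    LB C (m * C.c t ^ 4 * v) x → LB C (m' * C.c t ^ 4 * v) y → x = y)

/-- **RDC** (right decoding). `c_x⁻¹ o` and `c_y⁻¹ o` are the vertex of `[o, u o]` at distance
`Λ` from `o` (`d(o, c_x⁻¹ o) = d(c_x o, o) = Λ`); `UNQ`, `IN1` (2). -/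
def RDCStmt : Prop := ∀ (x y : ι) (u : G), RB C x u → RB C y u → x = y

/-- **FDC** (full decoding). `g = m c_s⁴ v`, `g' = m' c_t⁴ v`, both followed by the same `y`.
Proof. `D = d(g o, m c_s o) = d(v o, c_s⁻³ o)`, so `d(o, v o) ≤ D + 3Λ` and the hypothesis on the
offsets gives `D = D'`. `m c_s o` and `m c_s² o` lie on `[o, g o]` behind the branching point
(`CEN2`), so they lie on `[g o, g y o]` at distances `D`, `D - Λ` from `g o`; apply `g⁻¹`:
`v⁻¹ c_s⁻³ o`, `v⁻¹ c_s⁻² o` are the vertices of `[o, y o]` at distances `D`, `D - Λ`; the same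
for `t`; `UNQ`: `c_s⁻³ o = c_t⁻³ o`, `c_s⁻² o = c_t⁻² o`.  With `h = c_t³ c_s⁻³`: `h o = o` and
`h c_s o = c_t³ c_s⁻² o = c_t o`.  `p3`. -/
def FDCStmt : Prop :=
  ∀ (m m' v y g g' : G) (s t : ι), g = m * C.c s ^ 4 * v → g' = m' * C.c t ^ 4 * v →
    Bt C.T C.o (m • C.c s • C.o) (g • C.o) → Bt C.T C.o (m • (C.c s) ^ 2 • C.o) (g • C.o) →
    C.d C.o (m • (C.c s) ^ 2 • C.o) = C.d C.o (m • C.c s • C.o) + C.Λ →
    C.d C.o (cen C.tree C.o (g • C.o) ((g * y) • C.o)) ≤ C.d C.o (m • C.c s • C.o) →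
    Bt C.T C.o (m' • C.c t • C.o) (g' • C.o) → Bt C.T C.o (m' • (C.c t) ^ 2 • C.o) (g' • C.o) →
    C.d C.o (m' • (C.c t) ^ 2 • C.o) = C.d C.o (m' • C.c t • C.o) + C.Λ →
    C.d C.o (cen C.tree C.o (g' • C.o) ((g' * y) • C.o)) ≤ C.d C.o (m' • C.c t • C.o) →
    C.d (g • C.o) (m • C.c s • C.o) + 3 * C.Λ - C.d C.o (v • C.o) =
      C.d (g' • C.o) (m' • C.c t • C.o) + 3 * C.Λ - C.d C.o (v • C.o) →
    s = t

/-! ### The stack -/

/-- **OKT** (transfer of windows). Induction on `F`.  Head: `pos + Λ = d(o, end) ≤ R` by the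
first and fourth clause, so start and end stay on `[o, z']` and `pos + Λ ≤ R'`; tail: the
induction hypothesis with `R` and `R'` replaced by `pos` (`pos ≤ R`; points with `d(o, p) ≤ pos`
stay). -/
def OKTStmt : Prop :=
  ∀ (w : ℕ → G) (z z' : V) (F : List (ι × List ι)) (b : List ι) (R R' : ℕ),
    Ok C w z F b R →
    (∀ p : V, Bt C.T C.o p z → C.d C.o p ≤ R → Bt C.T C.o p z' ∧ C.d C.o p ≤ R') →
    Ok C w z' F b R'

/-- **POK** (popping keeps the windows). Induction on `F` (general `acc`, `R`).  A popped frame: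
induction hypothesis for the tail (`Ok` of the tail with `R := pos`).  A kept frame:
`pos + 2Λ ≤ β ≤ d(o, z')`, so `pos + Λ ≤ d(o, z') - Λ`; start, end and all windows below have
`d(o, ·) ≤ pos + Λ ≤ β` and stay on `[o, z']` (`OKT` with `R = R' = pos` for the tail); note that
`full ((f.1, acc ++ f.2) :: F) b = acc ++ full (f :: F) b`, and that changing the content of the
top frame changes neither `pos` nor `full F b`.  The last clause: numbers of frames. -/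
def POKStmt : Prop :=
  ∀ (w : ℕ → G) (g : G) (β : ℕ) (z z' : V) (F : List (ι × List ι)) (acc b : List ι) (R : ℕ),
    Ok C w z F b R →
    (∀ p : V, Bt C.T C.o p z → C.d C.o p ≤ β → Bt C.T C.o p z') →
    β ≤ C.d C.o z' →
    Ok C w z' (pop C w g β F acc b).2.1 (pop C w g β F acc b).2.2 (C.d C.o z' - C.Λ) ∧
    full (pop C w g β F acc b).2.1 (pop C w g β F acc b).2.2 = acc ++ full F b ∧
    (pop C w g β F acc b).2.1.length + (pop C w g β F acc b).1.length = F.length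

/-- **PVA** (popping messages are valid). Offsets: `d(g o, W m c_s o) = d(v o, c_s⁻³ o) ≤
d(v o, o) + 3Λ` with `v = (W m c_s⁴)⁻¹ g`, hence `off ≤ 6Λ` always.  If the head is popped with
`β ≤ pos`: `inl (off)` and induction.  If it is popped with `pos < β`: all frames below have
`pos' + Λ ≤ pos < β`, so they give `inr` when popped; the second one below has
`pos'' + 2Λ ≤ pos' + Λ ≤ pos < β` and is not popped.  So at most two `inr`, at the end. -/
def PVAStmt : Prop :=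
  ∀ (w : ℕ → G) (g : G) (β : ℕ) (z : V) (F : List (ι × List ι)) (acc b : List ι) (R : ℕ),
    Ok C w z F b R →
    ∃ (us : List ℕ) (rs : List ι),
      (pop C w g β F acc b).1 = us.map Sum.inl ++ rs.map Sum.inr ∧
      (∀ u ∈ us, u ≤ 6 * C.Λ) ∧ rs.length ≤ 2

/-- **PUN** (popping is decoded by the message). Induction on `F`, general `F'`, `acc₀`.
`F = []`: then `F' = []`.  `F = f :: F₁`, `F' = f' :: F₁'`, `f.2 = f'.2`.  If the head of `F` is
kept, the message is `[]`, so the head of `F'` is kept, and both masks are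
`((x :: acc₀) ++ f.2) :: F₁.map snd, b`.  If popped, both are popped and the first entries of the
messages agree: `inr f.1 = inr f'.1` gives `f.1 = f'.1`; `inl = inl`: `FDC` with
`m = W (full F₁ b)`, `m' = W (full F₁' b)`, `v = w (k+1) * vv (acc₀ ++ f.2) (k+1)`,
`k = (full F₁ b).length = (full F₁' b).length`, because
`W l = W (acc₀ ++ f.2 ++ f.1 :: full F₁ b) = m c_{f.1}⁴ v` (`W_append`); note
`(c_s⁴)⁻¹ (W m)⁻¹ g o = v o` in `off`.  So `f.1 = f'.1` and the induction hypothesis applies to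
`F₁, F₁'`, `acc₀ ++ f.2 ++ [f.1]` (`full_append_acc`; `Ok` of the tail). -/
def PUNStmt : Prop :=
  ∀ (w : ℕ → G) (x : ι) (y : G) (F F' : List (ι × List ι)) (acc₀ b : List ι) (l l' : List ι)
    (R R' : ℕ),
    l = acc₀ ++ full F b → l' = acc₀ ++ full F' b →
    F.map Prod.snd = F'.map Prod.snd →
    Ok C w (W C w l • C.o) F b R → Ok C w (W C w l' • C.o) F' b R' →
    (pop C w (W C w l) (C.d C.o (cen C.tree C.o (W C w l • C.o) ((W C w l * y) • C.o)))
        F (x :: acc₀) b).1 =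
      (pop C w (W C w l') (C.d C.o (cen C.tree C.o (W C w l' • C.o) ((W C w l' * y) • C.o)))
        F' (x :: acc₀) b).1 →
    mask (pop C w (W C w l) (C.d C.o (cen C.tree C.o (W C w l • C.o) ((W C w l * y) • C.o)))
        F (x :: acc₀) b).2 =
      mask (pop C w (W C w l') (C.d C.o (cen C.tree C.o (W C w l' • C.o) ((W C w l' * y) • C.o)))
        F' (x :: acc₀) b).2

/-- **INV** (invariant of the state). Induction on `l`.  `[]`: trivial.  Good step: `GST` with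
`g = W l`, `u = w (l.length + 1)`: the new window; the old ones by `OKT` with
`R = d(o, W l o) - Λ`, `R' = pos (new)` (if `d(o, p) ≤ R` and `R > 0` then `d(o,p) + Λ ≤ d(o, W l o)`;
`R = 0` is impossible for a nonempty stack because `pos + Λ ≤ R`: treat `F = []` apart).  Bad step:
`POK` with `β = bet`, `z = W l o`, `z' = W (x :: l) o`, `CEN1`, `CEN3`, applied to the stack after
`ini` (a tail of the stack or the stack). -/
def INVStmt : Prop :=
  ∀ (w : ℕ → G) (l : List ι),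
    full (St C w l).1 (St C w l).2 = l ∧
    Ok C w (W C w l • C.o) (St C w l).1 (St C w l).2 (C.d C.o (W C w l • C.o) - C.Λ)

/-- **MVA** (messages are valid, and the weights). From `PVA`, `POK` (last clause) and `INV`;
`ini` removes one frame iff it returns `some`.  Good step: `length + 1`. -/
def MVAStmt : Prop :=
  ∀ (w : ℕ → G) (x : ι) (l : List ι),
    Val (6 * C.Λ) (msg C w x l) ∧
    ∀ X : ℝ, 0 < X →
      X ^ (St C w (x :: l)).1.length = X ^ (St C w l).1.length * omg X (msg C w x l)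

/-- **MUN** (a step is decoded by the message). Let `(F, b) = St l`, `(F', b') = St l'`; equal
masks: `b = b'`, `F.map snd = F'.map snd`, hence `l.length = l'.length =: n` (`INV`).
Messages both `good`: the masks are `[] :: F.map snd, b`.  Both `bad` with the same flag `lb`:
If `lb` is true and `F = []` (so `F' = []`): `l = b = l'`, `LDC` (1) gives `x = x'`.  If `lb` is
true and `F = f :: F₁`: the message contains `f.1`, so `f.1 = f'.1 =: t`, `f.2 = f'.2 =: c`;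
`W l = m c_t⁴ v` with `m = W (full F₁ b)`, `v = w (k+1) * vv c (k+1)`, the windows give the
hypotheses of `LDC` (2) (`d(o, end) = pos + Λ ≤ d(o, W l o) - Λ`), so `x = x'`.  If `lb` is false:
not good, so `RB x`, `RB x'`, and `RDC` gives `x = x'`.  Now `PUN` with `y = c_x⁴ w (n+1)` and
`acc₀ = []` or `f.2 ++ [f.1]`. -/
def MUNStmt : Prop :=
  ∀ (w : ℕ → G) (x x' : ι) (l l' : List ι),
    mask (St C w l) = mask (St C w l') → msg C w x l = msg C w x' l' →
    mask (St C w (x :: l)) = mask (St C w (x' :: l'))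

/-- **MWT** (total weight of the messages). `X = M³`, `K = 6Λ`, `N = M⁴`.  Inject a finite set of
valid messages into `good` or `(lb, lf, us, rs)`; the sum over `(lf, lb)` is at most
`1 + (1 + N/X) ≤ 3M`, over `rs` at most `1 + N/X + (N/X)² = 1 + M + M² ≤ 3M²`, over lists `us` with
entries `≤ K` (of length at most some `n`) at most `∑_r ((K+1)/X)^r ≤ 4/3` as `(K+1)/X ≤ 1/4`;
total `≤ M³ + 12 M³`. -/
def MWTStmt : Prop :=
  ∀ 𝓜 : Finset (Msg ι), (∀ μ ∈ 𝓜, Val (6 * C.Λ) μ) →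
    ∑ μ ∈ 𝓜, omg ((C.M : ℝ) ^ 3) μ ≤ 16 * (C.M : ℝ) ^ 3

end code

/-- **ENC** (abstract counting). Words over `ι`, newest letter first, with a mask `mk`, a message
`ms x l` and weights; `Σ` over the set of masks of words of length `n`.  Induction on `n`: for a
mask `D'` of a word of length `n + 1` choose `(x, l)` with `mk (x :: l) = D'` and send `D'` to
`(mk l, ms x l)`; this is injective by `hun` (`mk (x :: l)` depends only on `(mk l, ms x l)`) and
`wt D' = wt (mk l) * om (ms x l)`; so the sum is at most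
`∑_D wt D ∑_{μ ∈ 𝓜} om μ ≤ lam ∑_D wt D`, `𝓜` = the finite set of messages of words of length
`n + 1`. -/
def ENCStmt (ι Γ Μ : Type*) [Fintype ι] : Prop :=
  ∀ (mk : List ι → Γ) (ms : ι → List ι → Μ) (wt : Γ → ℝ) (om : Μ → ℝ) (ok : Μ → Prop) (lam : ℝ),
    (∀ D, 0 ≤ wt D) → (∀ μ, 0 ≤ om μ) → 0 ≤ lam →
    (∀ x l, ok (ms x l)) →
    (∀ x x' l l', mk l = mk l' → ms x l = ms x' l' → mk (x :: l) = mk (x' :: l')) →
    (∀ x l, wt (mk (x :: l)) = wt (mk l) * om (ms x l)) →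
    (∀ 𝓜 : Finset Μ, (∀ μ ∈ 𝓜, ok μ) → ∑ μ ∈ 𝓜, om μ ≤ lam) →
    ∀ (n : ℕ) (𝓓 : Finset Γ), (∀ D ∈ 𝓓, ∃ l : List ι, l.length = n ∧ mk l = D) →
      ∑ D ∈ 𝓓, wt D ≤ lam ^ n * wt (mk [])

/-- **FIB** (from masks to words). If the number of words of length `n` with mask `D` that satisfy
`Q` is at most `A * q D` (for every `D`), then their number is at most `A * B`, if `∑ q D ≤ B` over
every finite set of masks of words of length `n`.  In the weighted form: `F ≥ 0`. Proof: `wsum`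
as a sum over the finite set of words of length `n` (or over `Fin n → ι`), fibred over `mk`. -/
def FIBStmt (ι Γ : Type*) [Fintype ι] : Prop :=
  ∀ (mk : List ι → Γ) (n : ℕ) (F : List ι → ℝ) (q : Γ → ℝ) (B : ℝ), 0 ≤ B →
    (∀ D : Γ, (∃ l : List ι, l.length = n ∧ mk l = D) →
      GWP.wsum n (fun l : List ι => if mk l = D then F l else 0) ≤ q D) →
    (∀ 𝓓 : Finset Γ, (∀ D ∈ 𝓓, ∃ l : List ι, l.length = n ∧ mk l = D) → ∑ D ∈ 𝓓, q D ≤ B) →
    GWP.wsum n F ≤ B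

section code2

variable {ι G V : Type*} [Fintype ι] [Group G] [MulAction G V] (C : Code ι G V)

/-- **SMW** (sum over the masks). `ENC` with `mk l = mask (St l)`, `wt D = X ^ D.1.length`,
`X = M³`, `om = omg X`, `ok = Val (6Λ)`, `lam = 16 M³`; the empty word has weight `1`. -/
def SMWStmt : Prop :=
  ∀ (w : ℕ → G) (n : ℕ) (𝓓 : Finset (List (List ι) × List ι)),
    (∀ D ∈ 𝓓, ∃ l : List ι, l.length = n ∧ mask (St C w l) = D) →
    ∑ D ∈ 𝓓, ((C.M : ℝ) ^ 3) ^ D.1.length ≤ (16 * (C.M : ℝ) ^ 3) ^ n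

/-- **HTD** (height and distance). From `INV`: the windows have disjoint interiors, so
`F.length * Λ ≤ R ≤ d(o, W l o)` (induction on `F` in `Ok`: `pos ≥ F.length_below * Λ`); precisely
`Ok z F b R → F.length * Λ ≤ R` for nonempty `F`, and `R + Λ ≤ d` if `R = d - Λ > 0`. -/
def HTDStmt : Prop :=
  (∀ (w : ℕ → G) (z : V) (F : List (ι × List ι)) (b : List ι) (R : ℕ),
    Ok C w z F b R → F.length * C.Λ ≤ R) ∧
  (∀ (w : ℕ → G) (l : List ι), (St C w l).1.length ≤ C.d C.o (W C w l • C.o))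

/-- **PV1** (linear progress of the distance, as an exponential moment). For a mask `D` with
`h = D.1.length` frames there are at most `N^h = M^(4h)` words with this mask (the word is
determined by the `h` tracked letters: `full F b = l`), and on them
`(1/M)^d ≤ (1/M)^h` (`HTD`); so the sum over the fibre is at most `M^(4h) M^(-h) = (M³)^h`;
`FIB` with `q D = (M³)^h` and `SMW`. -/
def PV1Stmt : Prop :=
  ∀ (w : ℕ → G) (n : ℕ),
    GWP.wsum n (fun l : List ι => (1 / (C.M : ℝ)) ^ (C.d C.o (W C w l • C.o))) ≤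
      (16 * (C.M : ℝ) ^ 3) ^ n

/-- **TPT** (a point of the trimmed segment).  `h` as in the definition of `Tp` for `g`, `p` on
`[o, g o]` with `t₁ ≤ d(o, p)` and `d(o, p) + t₂ ≤ d(o, g o)`.  Then `h p ∈ [Q, P]` at distance
`d(o, p) - t₁` from `Q`.  Proof: `Q`, `P`, `h p` lie on `[h o, h g o]` (for `Q`: `d(ho, hgo) ≤
d(ho,Q) + d(Q,hgo) ≤ t₁ + d(Q,P) + t₂`, equality), at distances `t₁`, `t₁ + d(Q,P)`, `d(o,p)` from
`h o`; `ORD`. -/
def TPTStmt : Prop :=
  ∀ (g h : G) (t₁ t₂ : ℕ) (Q P p : V),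
    C.d (h • C.o) Q = t₁ → C.d P (h • g • C.o) = t₂ →
    C.d (h • C.o) (h • g • C.o) = t₁ + C.d Q P + t₂ →
    Bt C.T C.o p (g • C.o) → t₁ ≤ C.d C.o p → C.d C.o p + t₂ ≤ C.d C.o (g • C.o) →
    Bt C.T Q (h • p) P ∧ C.d Q (h • p) + t₁ = C.d C.o p

/-- **TDC** (decoding a tracked letter from the type). The same `m` and the same position:
`h m c_s o = h' m c_t o` (the vertex of `[Q, P]` at distance `pos - t₁` from `Q`) and
`h m c_s² o = h' m c_t² o` (at distance `pos + Λ - t₁`) by `TPT` and `UNQ`.  With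
`k = c_t⁻¹ m⁻¹ h'⁻¹ h m c_s`: `k o = o` and `k c_s o = c_t⁻¹ m⁻¹ h'⁻¹ h m c_s² o = c_t o`; `p3`. -/
def TDCStmt : Prop :=
  ∀ (m g g' : G) (s t : ι) (t₁ t₂ : ℕ) (Q P : V),
    Tp C g t₁ t₂ Q P → Tp C g' t₁ t₂ Q P →
    Bt C.T C.o (m • C.c s • C.o) (g • C.o) → Bt C.T C.o (m • (C.c s) ^ 2 • C.o) (g • C.o) →
    C.d C.o (m • (C.c s) ^ 2 • C.o) = C.d C.o (m • C.c s • C.o) + C.Λ →
    Bt C.T C.o (m • C.c t • C.o) (g' • C.o) → Bt C.T C.o (m • (C.c t) ^ 2 • C.o) (g' • C.o) →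
    C.d C.o (m • (C.c t) ^ 2 • C.o) = C.d C.o (m • C.c t • C.o) + C.Λ →
    C.d C.o (m • C.c s • C.o) = C.d C.o (m • C.c t • C.o) →
    t₁ ≤ C.d C.o (m • C.c s • C.o) →
    C.d C.o (m • C.c s • C.o) + C.Λ + t₂ ≤ C.d C.o (g • C.o) →
    C.d C.o (m • C.c s • C.o) + C.Λ + t₂ ≤ C.d C.o (g' • C.o) →
    s = t

/-- offsets of the tracked letters with respect to the letters before them, top first -/
noncomputable def offs (w : ℕ → G) : List (ι × List ι) → List ι → List ℕ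
  | [], _ => []
  | f :: F, b => (pos C w f.1 (full F b) + C.Λ - C.d C.o (W C w (full F b) • C.o)) :: offs w F b

/-- **TUN** (the type decodes all tracked letters but the `E` lowest and the `E` highest,
`E = t + 1`). `F`, `F'` two stacks with the same mask and the same base, with windows on `[o, g o]`,
`[o, g' o]`, the same offsets, and the same letters in the lowest `E` and the highest `E` frames
(`F.map fst` is top first, so these are `drop (length - E)` and `take E`).  Claim `F = F'`.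
Proof: induction on `j`: the lowest `j` frames agree.  Let `F = P ++ f :: Q`, `F' = P' ++ f' :: Q`
(same `Q`, `|P| = |P'|`), `m = W (full Q b)`.  If `|Q| < E` or `|P| < E` then `f.1 = f'.1` by
hypothesis.  Otherwise `pos + Λ ≥ d(o, W(full Q b) o)` (triangle inequality) so equal offsets give
equal positions; `pos ≥ |Q| Λ ≥ E ≥ t₁` (HTD for `Q` with `R = pos`), and
`pos + Λ + t₂ ≤ d(o, g o)` because the `|P| ≥ E` windows above are between `pos + Λ` and `R`;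
`TDC` gives `f.1 = f'.1`. -/
def TUNStmt : Prop :=
  ∀ (w : ℕ → G) (g g' : G) (F F' : List (ι × List ι)) (b : List ι) (t t₁ t₂ : ℕ) (Q P : V)
    (R R' : ℕ),
    t₁ ≤ t → t₂ ≤ t → R ≤ C.d C.o (g • C.o) → R' ≤ C.d C.o (g' • C.o) →
    Ok C w (g • C.o) F b R → Ok C w (g' • C.o) F' b R' →
    F.map Prod.snd = F'.map Prod.snd →
    Tp C g t₁ t₂ Q P → Tp C g' t₁ t₂ Q P →
    offs C w F b = offs C w F' b →
    (F.map Prod.fst).take (t + 1) = (F'.map Prod.fst).take (t + 1) →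
    (F.map Prod.fst).drop (F.length - (t + 1)) = (F'.map Prod.fst).drop (F'.length - (t + 1)) →
    F = F'

/-- **PV2** (few words have a given type). Fibre over a mask `D` with `h` frames: the words of the
fibre with type `(Q, P)` inject (`TUN`, `INV`, `full F b = l`) into (offsets: `h` numbers
`≤ 2Λ`) × (two lists of at most `t + 1` letters), so there are at most
`(2Λ+1)^h N^(2t+2)` of them, and `(2Λ+1)^h ≤ (M³)^h`; `FIB` with `q D = M^(8t+8) (M³)^h`, `SMW`.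
(Lists of length `min (t+1) h`: pad or use the bound `N^(min ..) ≤ N^(t+1)`.) -/
def PV2Stmt : Prop :=
  ∀ (w : ℕ → G) (n t t₁ t₂ : ℕ) (Q P : V), t₁ ≤ t → t₂ ≤ t →
    GWP.wsum n (fun l : List ι => if Tp C (W C w l) t₁ t₂ Q P then (1 : ℝ) else 0) ≤
      (C.M : ℝ) ^ (8 * t + 8) * (16 * (C.M : ℝ) ^ 3) ^ n

/-! ### Random words -/

/-- **RWB** (random words in blocks). `δ = M⁴ / (2 q^k₀)`, `q = card S`.  Proof. The words `wd s`
are different: `c_s⁴ = c_t⁴` gives `c_s o = c_t o` (the vertex of `[o, c_s⁴ o]` at distance `Λ`,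
`d1, d4`, `UNQ`, `IN1`).  Claim: for all `n`, `m`, `w` and all fixed `u : List S`,
`∑_{z ∈ S^(k₀ n)} ∑_{l ∈ ι^m} F (W w l * ev z * ev u) ≤ A (16M³)^m (q^k₀ - M⁴ + 16M³)^n`.
Induction on `n`: `n = 0`: replace `w m` by `w m * ev u` (only the last factor of `W w l` for
`l.length = m` changes) and use `hF`.  Step: `wsum (k₀ + k₀ n)`, first block `B`: if `B = wd x`,
then `W w l * c_x⁴ = W w' (x :: l)` with `w' (m+1) = 1` and `w' = w` below: summed over `x` this is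
the case `m + 1`; the other `q^k₀ - M⁴` blocks change `w m` to `w m * ev B`: case `m`.  Now
`16 M³ ≤ M⁴/2`, `q^k₀ - M⁴/2 = q^k₀ (1 - δ)`; take `m = 0`, `w 0 = 1`, `r = k₀ (r/k₀) + r % k₀`
(`wsum_append`, the last `r % k₀` letters are `u`). -/
def RWBStmt (S : Type*) [Fintype S] : Prop :=
  ∀ (e : S → G) (wd : ι → List S) (k₀ : ℕ) (F : G → ℝ) (A : ℝ), 1 ≤ k₀ →
    (∀ s, (wd s).length = k₀) → (∀ s, GWP.ev e (wd s) = C.c s ^ 4) → 0 ≤ A → (∀ g, 0 ≤ F g) →
    (∀ (w : ℕ → G) (m : ℕ), GWP.wsum m (fun l : List ι => F (W C w l)) ≤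
      A * (16 * (C.M : ℝ) ^ 3) ^ m) →
    ∀ r : ℕ, GWP.wsum r (fun z : List S => F (GWP.ev e z)) ≤
      A * (Fintype.card S : ℝ) ^ r *
        (1 - (C.M : ℝ) ^ 4 / 2 / (Fintype.card S : ℝ) ^ k₀) ^ (r / k₀)

/-- **RW1** (linear progress). `RWB` with `F g = (1/M)^d(o, g o)`, `A = 1` (`PV1`).  With
`κ' = (1-δ)^(1/k₀)`, `(1-δ)^(r/k₀) ≤ (1-δ)⁻¹ κ'^r`; Markov: the number of `z` with
`d < c r` is at most `M^(c r)` times the sum; choose `c > 0` with `M^c ≤ κ'^(-1/2)`, `κ = √κ'`.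
(`δ ≤ 1/2` since the `M⁴` words `wd s` are different, see `RWB`; if only `δ < 1` is used, take
`κ' = max ((1-δ)^(1/k₀)) (1/2)`.) -/
def RW1Stmt (S : Type*) [Fintype S] : Prop :=
  ∀ (e : S → G) (wd : ι → List S) (k₀ : ℕ), 1 ≤ k₀ →
    (∀ s, (wd s).length = k₀) → (∀ s, GWP.ev e (wd s) = C.c s ^ 4) →
    ∃ c κ A : ℝ, 0 < c ∧ 0 < κ ∧ κ < 1 ∧ 0 < A ∧ ∀ r : ℕ,
      GWP.wsum r (fun z : List S =>
        if (C.d C.o (GWP.ev e z • C.o) : ℝ) < c * r then (1 : ℝ) else 0) ≤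
        A * κ ^ r * (Fintype.card S : ℝ) ^ r

/-- **RW2** (types are rare). `RWB` with `F g = 1[Tp g t₁ t₂ Q P]`, `A = M^(8t+8)` (`PV2`);
`κ` as in `RW1`. -/
def RW2Stmt (S : Type*) [Fintype S] : Prop :=
  ∀ (e : S → G) (wd : ι → List S) (k₀ t : ℕ), 1 ≤ k₀ →
    (∀ s, (wd s).length = k₀) → (∀ s, GWP.ev e (wd s) = C.c s ^ 4) →
    ∃ κ A : ℝ, 0 < κ ∧ κ < 1 ∧ 0 < A ∧ ∀ (r t₁ t₂ : ℕ) (Q P : V), t₁ ≤ t → t₂ ≤ t →
      GWP.wsum r (fun z : List S => if Tp C (GWP.ev e z) t₁ t₂ Q P then (1 : ℝ) else 0) ≤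
        A * κ ^ r * (Fintype.card S : ℝ) ^ r

/-- **PAS** (passages). A word `b` and `g` such that `Q` comes before `P` on `[g o, g b o]`
(`Q ≠ P`).  Put `y_j = g (b_1 … b_j) o`, `j = 0 … |b|`; Q-side: `Bt y Q P`; P-side:
`Bt Q P y`.  `y_0` is on the Q-side, `y_{|b|}` on the P-side; let `j₂` be the first index on the
P-side and `j₁` the last index `< j₂` on the Q-side (`j₂ > 0` since nothing is on both sides:
`d(y,P) = d(y,Q) + d(Q,P)` and `d(Q,y) = d(Q,P) + d(P,y)` give `d(Q,P) = 0`).  `y_{j₁+1}` is not on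
the Q-side (if `j₁ + 1 < j₂` by the choice, if `j₁ + 1 = j₂` because it is on the P-side), so by
`SID` `Q ∈ [y_{j₁}, y_{j₁+1}]` and `d(y_{j₁}, Q) ≤ D`; by `SID` (for `P, Q`) `P ∈ [y_{j₂-1}, y_{j₂}]`
and `d(P, y_{j₂}) ≤ D`; `Bt y_{j₁} Q P`, `Bt Q P y_{j₂}`, `CAT`:
`d(y_{j₁}, y_{j₂}) = d(y_{j₁},Q) + d(Q,P) + d(P,y_{j₂})`.  Take `u = b_1…b_{j₁}`,
`z = b_{j₁+1} … b_{j₂}`, `v` = the rest, `h = g ev(u)`; finally `d(Q,P) ≤ d(y_{j₁}, y_{j₂}) ≤ D |z|`. -/
def PASStmt (S : Type*) : Prop :=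
  ∀ (e : S → G) (D : ℕ), (∀ s, C.d C.o (e s • C.o) ≤ D) →
    ∀ (b : List S) (g : G) (Q P : V), Q ≠ P →
      C.d (g • C.o) Q + C.d Q P + C.d P (g • GWP.ev e b • C.o) =
        C.d C.o (GWP.ev e b • C.o) →
      ∃ (u z v : List S) (t₁ t₂ : ℕ), b = u ++ z ++ v ∧ t₁ ≤ D ∧ t₂ ≤ D ∧
        Tp C (GWP.ev e z) t₁ t₂ Q P ∧ C.d Q P ≤ D * z.length

/-- **CT1** (blocks passing a given pair backwards). Fix `Q, P` with `d(Q,P) ≥ θ ≥ 1`.  By `PAS`
the indicator of `b` is at most `∑_{j₁ ≤ L} ∑_{r ≤ L, θ ≤ D r} ∑_{t₁,t₂ ≤ D} 1[Tp (ev z) …]`, `z` =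
the subword of `b` of length `r` at place `j₁` (`j₁ + r ≤ L`); by `wsum_append` each term sums to
`q^(L-r) · A κ^r q^r ≤ A κ^(θ/D) q^L` (`κ^r ≤ κ^⌈θ/D⌉`, and `θ ≤ D r`; stated with
`κ ^ (θ / D)`, natural division, which is larger).  Number of terms `≤ (L+1)² (D+1)²`. -/
def CT1Stmt (S : Type*) [Fintype S] : Prop :=
  ∀ (e : S → G) (D : ℕ), 1 ≤ D → (∀ s, C.d C.o (e s • C.o) ≤ D) →
    ∀ (κ A : ℝ), 0 < κ → κ < 1 → 0 < A →
    (∀ (r t₁ t₂ : ℕ) (Q P : V), t₁ ≤ D → t₂ ≤ D →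
      GWP.wsum r (fun z : List S => if Tp C (GWP.ev e z) t₁ t₂ Q P then (1 : ℝ) else 0) ≤
        A * κ ^ r * (Fintype.card S : ℝ) ^ r) →
    ∀ (L θ : ℕ) (Q P : V), 1 ≤ θ → θ ≤ C.d Q P →
      GWP.wsum L (fun b : List S => if ∃ g : G,
        C.d (g • C.o) Q + C.d Q P + C.d P (g • GWP.ev e b • C.o) = C.d C.o (GWP.ev e b • C.o)
        then (1 : ℝ) else 0) ≤
      (L + 1) ^ 2 * (D + 1) ^ 2 * A * κ ^ (θ / D) * (Fintype.card S : ℝ) ^ L

/-- **CT2** (blocks comparable with a given element are rare). `1[Cmp θ x (ev b)]` is at most the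
sum over the pairs `(P, Q)` of vertices of `[o, x o]` with `d(P,Q) ≥ θ` of the indicator of `CT1`;
there are at most `(d(o, x o) + 1)²` pairs (the vertices on `[o, x o]` form a finite set, injected
into `Fin (d+1)` by the distance from `o`, `UNQ`; `P` and `Q` lie on `[o, x o]`). -/
def CT2Stmt (S : Type*) [Fintype S] : Prop :=
  ∀ (e : S → G) (L θ : ℕ) (B : ℝ), 0 ≤ B →
    (∀ (Q P : V), θ ≤ C.d Q P →
      GWP.wsum L (fun b : List S => if ∃ g : G,
        C.d (g • C.o) Q + C.d Q P + C.d P (g • GWP.ev e b • C.o) = C.d C.o (GWP.ev e b • C.o)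
        then (1 : ℝ) else 0) ≤ B) →
    ∀ x : G, GWP.wsum L (fun b : List S => if Cmp C θ x (GWP.ev e b) then (1 : ℝ) else 0) ≤
      ((C.d C.o (x • C.o) : ℝ) + 1) ^ 2 * B

/-- **CT3** (choice of the parameters). For every `ε > 0` there are `L`, `c₁`, `θ`, `R` as
follows.  `D ≥ 1`.  Let `c` be as in `RW1`; `c₁ = ⌈c L⌉`, `θ = c₁ / 8`, `R = ⌈6 D / c⌉ + 2`;
`d < c₁ ↔ d < c L`; for `L` large everything tends to `0`: `A κ^L → 0`, and by `CT1`, `CT2`
`(D L + 1)² (L+1)² (D+1)² A κ^(θ/D) → 0` since `θ ≥ c L / 16` for large `L`.  (`ε` is chosen after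
`R`: so `R` first, then `∀ ε ∃ L`.) -/
def CT3Stmt (S : Type*) [Fintype S] : Prop :=
  ∀ (e : S → G) (D : ℕ), 1 ≤ D → (∀ s, C.d C.o (e s • C.o) ≤ D) →
    ∀ (wd : ι → List S) (k₀ : ℕ), 1 ≤ k₀ →
    (∀ s, (wd s).length = k₀) → (∀ s, GWP.ev e (wd s) = C.c s ^ 4) →
    ∃ R : ℕ, ∀ ε : ℝ, 0 < ε → ∃ L c₁ θ : ℕ, 1 ≤ L ∧ 1 ≤ c₁ ∧ 1 ≤ θ ∧ 8 * θ ≤ c₁ ∧
      6 * (D * L) + 2 * c₁ ≤ R * c₁ ∧
      GWP.wsum L (fun b : List S => if C.d C.o (GWP.ev e b • C.o) < c₁ then (1 : ℝ) else 0) ≤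
        ε * (Fintype.card S : ℝ) ^ L ∧
      ∀ x : G, C.d C.o (x • C.o) ≤ D * L →
        GWP.wsum L (fun b : List S => if Cmp C θ x (GWP.ev e b) then (1 : ℝ) else 0) ≤
          ε * (Fintype.card S : ℝ) ^ L

/-! ### Polygons -/

/-- **PPS** (popping pieces). Induction on `σ`.  `[]`: `v = o = m`, `r = 0`.  `c :: σ` with `g, u`:
if `d(o,u) ≤ d(o,m)`: `r = 0` (`u` before `m` before `v` on `[o, v]`, so `g, u` still work for `m`);
if `d(m,v) ≥ θ`, `P = m, Q = v` is a forward part of the side of `c`, so `hK` gives `q c`; else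
`d(m,v) ≤ θ`.  If `d(o,m) < d(o,u)`: `m ∈ [o, u]`, induction for `σ, u, m` (`hK` for `P, Q` in
`[m, u]`: then also in `[m, v]`); `r = r' + 1`; if no `q` found below and `d(u,v) ≥ θ`, `hK` with
`P = u, Q = v` gives `q c`; else `d(m,v) = d(m,u) + d(u,v) ≤ θ (r'+1) + θ`. -/
def PPSStmt : Prop :=
  ∀ (θ : ℕ) (q : G → Prop) (σ : List G) (v m : V), Pc C σ v → Bt C.T C.o m v →
    (∀ (c g : G) (P Q : V), C.d m P + C.d P Q + C.d Q v = C.d m v → θ ≤ C.d P Q →
      C.d (g • C.o) P + C.d P Q + C.d Q (g • c • C.o) = C.d C.o (c • C.o) → q c) →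
    ∃ r ≤ σ.length, Pc C (σ.drop r) m ∧
      (C.d m v ≤ θ * (r + 1) ∨ ∃ c ∈ σ.take (r + 1), q c)

/-- **PLY** (polygon lemma). `B` the type of blocks, `val : B → G`.  For a list of blocks (oldest
first) there is a run with: `σ` cuts `[o, x o]` (`x` = the product), at least as many claims as
`sh`-blocks, and `∑ ℓ_i + 2 θ h ≤ d(o, x o) + 2 E (claims) + 4 θ (number of blocks)`.  Proof:
induction on the list from the end (`List.reverseRecOn`; `runs (bs ++ [b])` is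
`(runs bs).flatMap (stp b)`).  New block `b`, `x' = x val b`, `m = cen o (x o) (x' o)`; `PPS` with
`v = x o`, `q c = Cmp θ c (val b)`, more precisely `q (val c)`: for `P, Q` as in `hK` of `PPS`,
`Q` comes before `P` on `[x o, m] ⊆ [x o, x' o]`, so `Cmp θ c (val b)` with the elements
`g⁻¹ P`, `g⁻¹ Q`, `g⁻¹ x`.  The new stack is `b :: drop r σ`: lower vertex `m`, piece `[m, x' o]` of
the side `x [o, val b o]` (`d(xo, m) + d(m, x'o) + 0 = ℓ`).  `ℓ = Δd + 2 d(m, x o)` and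
`d(m, x o) ≤ E` (`≤ ℓ`) and, if there is no claim, `≤ θ (r+1)`. -/
def PLYStmt (B : Type*) : Prop :=
  ∀ (val : B → G) (sh : B → Bool) (cmp : B → B → Bool) (θ E : ℕ) (ok : B → Prop),
    (∀ b, ok b → C.d C.o (val b • C.o) ≤ E) →
    (∀ c b, ok c → ok b → Cmp C θ (val c) (val b) → cmp c b = true) →
    ∀ bs : List B, (∀ b ∈ bs, ok b) → ∃ cfg ∈ runs sh cmp bs,
      Pc C (cfg.1.map val) ((bs.map val).prod • C.o) ∧ (∀ c ∈ cfg.1, ok c) ∧
      bs.countP sh ≤ cfg.2 ∧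
      (bs.map (fun b => C.d C.o (val b • C.o))).sum + 2 * θ * cfg.1.length ≤
        C.d C.o ((bs.map val).prod • C.o) + 2 * E * cfg.2 + 4 * θ * bs.length

/-- **SOU** (soundness). `PLY` with `sh b = true ↔ d(o, val b o) < c₁`: `m = bs.length`,
`cl = cfg.2`; `∑ ℓ_i ≥ c₁ (m - countP sh) ≥ c₁ (m - cl)` and `d(o, x o) ≤ E`, so
`c₁ m ≤ E + (2E + c₁) cl + 4 θ m ≤ E + (2E + c₁) cl + (c₁/2) m` (`8 θ ≤ c₁`), i.e.
`c₁ m ≤ 2E + (4E + 2c₁) cl ≤ R c₁ (cl + 1)` by `6E + 2c₁ ≤ R c₁`. -/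
def SOUStmt (B : Type*) : Prop :=
  ∀ (val : B → G) (sh : B → Bool) (cmp : B → B → Bool) (θ E c₁ R : ℕ) (ok : B → Prop),
    1 ≤ c₁ → 8 * θ ≤ c₁ → 6 * E + 2 * c₁ ≤ R * c₁ →
    (∀ b, ok b → C.d C.o (val b • C.o) ≤ E) →
    (∀ b, ok b → C.d C.o (val b • C.o) < c₁ → sh b = true) →
    (∀ c b, ok c → ok b → Cmp C θ (val c) (val b) → cmp c b = true) →
    ∀ bs : List B, (∀ b ∈ bs, ok b) → C.d C.o ((bs.map val).prod • C.o) ≤ E →
      ∃ cfg ∈ runs sh cmp bs, bs.length ≤ R * (cfg.2 + 1)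

end code2

/-! ### Counting runs; computability -/

/-- **RUN** (union bound over the runs). `p = 16^(-R) / 4` (so that `A p ≤ 1/4`, `A = 16^R`).
Potential of a configuration `2^|σ| A^cl`.  One step, `σ` of height `h` with all blocks of length
`L`: `∑_{b ∈ S^L} ∑_{r ≤ h} 2^(h-r+1) (1 + A · 1[clm b σ r])
≤ q^L 2^h ∑_r 2^(1-r) (1 + A (r+2) p) ≤ 8 q^L 2^h`
(the number of `b` with `clm b σ r` is at most `(1 + (r+1)) p q^L`; `∑ 2^(1-r) = 4`,
`∑ (r+2) 2^(1-r) = 12`, `4 + 12/4 = 7`).  So the sum of the potentials over all lists of `m` blocks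
and all runs is at most `(8 q^L)^m`; if some run has `m ≤ R (cl+1)` then its potential is at least
`A^cl ≥ 16^m / A`; so the number of bad lists is at most `A (8/16)^m q^(Lm)`.  Then words: `w` of
length `n` is `n / L` blocks and a rest (`wsum_append`, `blocks`). -/
def RUNStmt (S : Type*) [Fintype S] : Prop :=
  ∀ (sh : List S → Bool) (cmp : List S → List S → Bool) (L R : ℕ), 1 ≤ L →
    (GWP.wsum L (fun b : List S => if sh b = true then (1 : ℝ) else 0) ≤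
      (1 / 16) ^ R / 4 * (Fintype.card S : ℝ) ^ L) →
    (∀ c : List S, c.length = L →
      GWP.wsum L (fun b : List S => if cmp c b = true then (1 : ℝ) else 0) ≤
        (1 / 16) ^ R / 4 * (Fintype.card S : ℝ) ^ L) →
    ∀ n : ℕ, GWP.wsum n (fun w : List S =>
      if ∃ cfg ∈ runs sh cmp (blocks L w), (blocks L w).length ≤ R * (cfg.2 + 1)
      then (1 : ℝ) else 0) ≤
      16 ^ R * (1 / 2 : ℝ) ^ (n / L) * (Fintype.card S : ℝ) ^ n

/-- **RU1** (one step of the union bound), see `RUN`; `p = (1/16)^R/4`, `A = 16^R`. -/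
def RU1Stmt (S : Type*) [Fintype S] : Prop :=
  ∀ (sh : List S → Bool) (cmp : List S → List S → Bool) (L R : ℕ),
    (GWP.wsum L (fun b : List S => if sh b = true then (1 : ℝ) else 0) ≤
      (1 / 16) ^ R / 4 * (Fintype.card S : ℝ) ^ L) →
    (∀ c : List S, c.length = L →
      GWP.wsum L (fun b : List S => if cmp c b = true then (1 : ℝ) else 0) ≤
        (1 / 16) ^ R / 4 * (Fintype.card S : ℝ) ^ L) →
    ∀ (σ : List (List S)) (cl : ℕ), (∀ c ∈ σ, c.length = L) →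
      GWP.wsum L (fun b : List S => ((stp sh cmp b (σ, cl)).map (fun cfg =>
        (2 : ℝ) ^ cfg.1.length * (16 ^ R) ^ cfg.2)).sum) ≤
      8 * (Fintype.card S : ℝ) ^ L * ((2 : ℝ) ^ σ.length * (16 ^ R) ^ cl)

/-- **BLO** (blocks of a word). For `L ≥ 1`: all blocks have length `L`, and the word is the
concatenation of the blocks and a rest of length `< L`; and for `b` of length `L`,
`blocks L (b ++ w) = b :: blocks L w`. -/
def BLOStmt (S : Type*) : Prop :=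
  ∀ L : ℕ, 1 ≤ L →
    (∀ w : List S, (∀ b ∈ blocks L w, b.length = L) ∧
      w = (blocks L w).flatten ++ w.drop (L * (w.length / L)) ∧
      (w.drop (L * (w.length / L))).length < L ∧ (blocks L w).length = w.length / L) ∧
    (∀ b w : List S, b.length = L → blocks L (b ++ w) = b :: blocks L w)

/-- **CPU** (computability). All tables are applied to lists of length `≤ L` only. Model:
H55/GWP/CMP1.lean (`primrec_take`, `CMP1_take22`, `Primrec.list_foldl`, `list_flatMap`,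
`list_range`, `list_map`, `list_drop`); transport the letters `Fin k × Bool` to `Fin (2k)` by a map
(`Primrec.dom_finite`).  `runs` is a fold of `Cs ↦ Cs.flatMap (stp b)`; `any` over `take (r+1)` and
the existential over `runs` by `List.any` / `foldr` or a filter. -/
def CPUStmt : Prop :=
  ∀ (k L R : ℕ) (g1 : List (Fin k × Bool) → Bool)
    (g2 : List (Fin k × Bool) → List (Fin k × Bool) → Bool),
    ComputablePred (fun w : List (Fin k × Bool) =>
      ∃ cfg ∈ runs (fun b => g1 (b.take L)) (fun c b => g2 (c.take L) (b.take L)) (blocks L w),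
        (blocks L w).length ≤ R * (cfg.2 + 1))

/-! ### From two letters to a code -/

/-- product of a word in `a` (false) and `b` (true) -/
def prw {G : Type*} [Group G] (a b : G) (l : List Bool) : G :=
  (l.map (fun x => if x then b else a)).prod

/-- **AL1** (local to global). `a, b` with `d(x⁻¹ o, y o) = 2 ℓ` for `x, y ∈ {a, b}`, `ℓ ≥ 1`.
Induction on `l` of both claims: for `l = y :: l'`: `Bt (x⁻¹ o) o (y o)`,
`Bt o (y o) (y l' o)` (as `d(o, y l' o) = d(y⁻¹ o, l' o) = (|l'| + 1) ℓ`), `o ≠ y o`; `CAT`. -/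
def AL1Stmt (G V : Type*) [Group G] [MulAction G V] : Prop :=
  ∀ (T : SimpleGraph V), T.IsTree →
    (∀ (g : G) (u v : V), T.Adj u v → T.Adj (g • u) (g • v)) →
    ∀ (o : V) (a b : G) (ℓ : ℕ), 1 ≤ ℓ → T.dist o (a • o) = ℓ → T.dist o (b • o) = ℓ →
      (∀ x ∈ ({a, b} : Set G), ∀ y ∈ ({a, b} : Set G), T.dist (x⁻¹ • o) (y • o) = 2 * ℓ) →
      ∀ l : List Bool, T.dist o (prw a b l • o) = l.length * ℓ ∧
        ∀ x ∈ ({a, b} : Set G), T.dist (x⁻¹ • o) (prw a b l • o) = (l.length + 1) * ℓ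

/-- **AL2** (patterns are different). Induction on `l`: `l = y :: l₁`, `l' = y' :: l₁'`.  The
vertex of `[o, l o]` at distance `ℓ` is `y o` (`AL1`: `d(y o, l o) = |l₁| ℓ`), so `g y o` and `y' o`
are the vertex of `[o, l' o]` at distance `ℓ` (`UNQ`): `g y o = y' o`.  If `y ≠ y'`, `hno` for `g`
or `g⁻¹`.  So `y = y'`; `y⁻¹ g y` fixes `o` and maps `l₁ o` to `l₁' o`. -/
def AL2Stmt (G V : Type*) [Group G] [MulAction G V] : Prop :=
  ∀ (T : SimpleGraph V), T.IsTree →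
    (∀ (g : G) (u v : V), T.Adj u v → T.Adj (g • u) (g • v)) →
    ∀ (o : V) (a b : G) (ℓ : ℕ), 1 ≤ ℓ → T.dist o (a • o) = ℓ → T.dist o (b • o) = ℓ →
      (∀ x ∈ ({a, b} : Set G), ∀ y ∈ ({a, b} : Set G), T.dist (x⁻¹ • o) (y • o) = 2 * ℓ) →
      (∀ g : G, g • o = o → g • a • o ≠ b • o) →
      ∀ (l l' : List Bool), l.length = l'.length → ∀ g : G, g • o = o →
        g • prw a b l • o = prw a b l' • o → l = l'

/-- **AL3** (the code). Given `a`, `b` as in `AL2` and words `ua`, `ub` of the same length with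
values `a`, `b`: for large `n` take `ι = Fin (4 n) → Bool`, `c s = prw a b (List.ofFn s)`,
`Λ = 4 n ℓ`, `M = 2^n`, `wd s` = the fourfold concatenation of the word of `c s`,
`k₀ = 16 n |ua|`.  `d4`: `c_s⁴ = prw (l ++ l ++ l ++ l)`.  `4 (6 · 4 n ℓ + 1) ≤ 8^n` and
`32 ≤ 2^n` for large `n`.  (`|ua| ≥ 1` because `a o ≠ o`.) -/
def AL3Stmt.{u, v, w} (S : Type w) (G : Type u) (V : Type v) [Group G] [MulAction G V] : Prop :=
  ∀ (T : SimpleGraph V), T.IsTree →
    (∀ (g : G) (u v : V), T.Adj u v → T.Adj (g • u) (g • v)) →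
    ∀ (o : V) (a b : G) (ℓ : ℕ), 1 ≤ ℓ → T.dist o (a • o) = ℓ → T.dist o (b • o) = ℓ →
      (∀ x ∈ ({a, b} : Set G), ∀ y ∈ ({a, b} : Set G), T.dist (x⁻¹ • o) (y • o) = 2 * ℓ) →
      (∀ g : G, g • o = o → g • a • o ≠ b • o) →
      ∀ (e : S → G) (ua ub : List S), ua.length = ub.length → GWP.ev e ua = a →
        GWP.ev e ub = b →
        ∃ (n : ℕ) (C : Code (Fin n → Bool) G V) (wd : (Fin n → Bool) → List S) (k₀ : ℕ),
          C.o = o ∧ C.T = T ∧ 1 ≤ k₀ ∧ (∀ s, (wd s).length = k₀) ∧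
          (∀ s, GWP.ev e (wd s) = C.c s ^ 4)

/-- **AL4** (equal word lengths). Replace `(a, b)` by `(a b, b a)`: `ℓ' = 2 ℓ`;
`d(o, a b o) = 2ℓ`, `d(x⁻¹ o, y o) = 4ℓ` for `x, y ∈ {ab, ba}` (`AL1`: `(ab)⁻¹ (…)`: apply `AL1` to
the word `x y` of length 4 and `Code.ds`-like invariance), and if `g o = o`, `g a b o = b a o`, then
`AL2` with `l = [false, true]`, `l' = [true, false]` gives a contradiction. -/
def AL4Stmt (G V : Type*) [Group G] [MulAction G V] : Prop :=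
  ∀ (T : SimpleGraph V), T.IsTree →
    (∀ (g : G) (u v : V), T.Adj u v → T.Adj (g • u) (g • v)) →
    ∀ (o : V) (a b : G) (ℓ : ℕ), 1 ≤ ℓ → T.dist o (a • o) = ℓ → T.dist o (b • o) = ℓ →
      (∀ x ∈ ({a, b} : Set G), ∀ y ∈ ({a, b} : Set G), T.dist (x⁻¹ • o) (y • o) = 2 * ℓ) →
      (∀ g : G, g • o = o → g • a • o ≠ b • o) →
      T.dist o ((a * b) • o) = 2 * ℓ ∧ T.dist o ((b * a) • o) = 2 * ℓ ∧
      (∀ x ∈ ({a * b, b * a} : Set G), ∀ y ∈ ({a * b, b * a} : Set G),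
        T.dist (x⁻¹ • o) (y • o) = 2 * (2 * ℓ)) ∧
      (∀ g : G, g • o = o → g • (a * b) • o ≠ (b * a) • o)

section code3

variable {ι G V : Type*} [Fintype ι] [Group G] [MulAction G V] (C : Code ι G V)

/-- **GFN** (assembly for a code). Let `D = max 1 (max_s d(o, e s o))`.  `CT3` gives `R`; take
`ε = (1/16)^R / 4` and `L, c₁, θ`; `g1 b = decide (d(o, ev b o) < c₁)`,
`g2 c b = decide (Cmp θ (ev c) (ev b))`, `A w` as in `CPU`.  Computable by `CPU`.  Sound: if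
`ev w = 1`, then `x = (product of the blocks)` has `x o = (ev rest)⁻¹ o`, `d(o, x o) ≤ D L =: E`,
`SOU` with `ok b := b.length = L` (`b.take L = b`), `BLO`.  Counting: `RUN` and
`(1/2)^(n/L) ≤ 2 κ^n` with `κ = (1/2)^(1/L)`. -/
def GFNStmt : Prop :=
  ∀ (k : ℕ) (e : Fin k × Bool → G) (wd : ι → List (Fin k × Bool)) (k₀ : ℕ), 1 ≤ k₀ →
    (∀ s, (wd s).length = k₀) → (∀ s, GWP.ev e (wd s) = C.c s ^ 4) →
    ∃ A : List (Fin k × Bool) → Prop, ComputablePred A ∧ (∀ w, GWP.ev e w = 1 → A w) ∧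
      ∃ K κ : ℝ, 0 < K ∧ 0 < κ ∧ κ < 1 ∧ ∀ n : ℕ,
        GWP.wsum n (fun w : List (Fin k × Bool) => if A w then (1 : ℝ) else 0) ≤
          K * κ ^ n * (Fintype.card (Fin k × Bool) : ℝ) ^ n

end code3

end GWT
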