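import Pool.Agent.H73.GWT.Defs

/-! Project GWT: tree facts and first facts about the definitions. -/

set_option autoImplicit false
open Classical
namespace GWT

section pure
variable {V : Type*} {T : SimpleGraph V}

theorem dcomm (x y : V) : T.dist x y = T.dist y x := SimpleGraph.dist_comm

theorem dtri (hT : T.IsTree) (x y z : V) : T.dist x z ≤ T.dist x y + T.dist y z :=
  hT.connected.dist_triangle

theorem dzero (hT : T.IsTree) {x y : V} (h : T.dist x y = 0) : x = y :=
  (hT.connected.dist_eq_zero_iff).mp h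

theorem Bt.symm {x u y : V} (h : Bt T x u y) : Bt T y u x := by
  unfold Bt at *
  rw [dcomm y u, dcomm u x, dcomm y x]
  omega

/-- uniqueness of the point at a given distance on a geodesic -/
theorem UNQ (hT : T.IsTree) {x y u u' : V} (h : Bt T x u y) (h' : Bt T x u' y)
    (e : T.dist x u = T.dist x u') : u = u' := by
  have h1 := GWP.tpath_get_of hT x y u h
  have h2 := GWP.tpath_get_of hT x y u' h'
  have e2 : T.dist y u = T.dist y u' := by
    unfold Bt at h h'
    rw [dcomm y u, dcomm y u']
    omega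
  rw [e2] at h1
  rw [h1] at h2
  exact Option.some.inj h2

/-- existence of the point at a given distance on a geodesic -/
theorem EXI (hT : T.IsTree) (x y : V) (i : ℕ) (hi : i ≤ T.dist x y) :
    ∃ m, T.dist x m = i ∧ Bt T x m y := by
  have hlt : i < (GWP.tpath hT y x).length := by
    rw [GWP.tpath_length, dcomm y x]; omega
  obtain ⟨h1, h2⟩ := GWP.tpath_get hT y x _ i (List.getElem?_eq_getElem hlt)
  exact ⟨_, h1, Bt.symm h2⟩

/-- `p`, `q` on `[x, z]`, `p` before `q` -/
theorem ORD (hT : T.IsTree) {x z p q : V} (hp : Bt T x p z) (hq : Bt T x q z)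
    (h : T.dist x p ≤ T.dist x q) : Bt T x p q ∧ Bt T p q z := by
  obtain ⟨m, hm, hmq⟩ := EXI hT x q (T.dist x p) h
  have hmz : Bt T x m z := by
    unfold Bt at *
    have t1 := dtri hT m q z
    have t2 := dtri hT x m z
    omega
  have hmp : m = p := UNQ hT hmz hp hm
  subst hmp
  refine ⟨hmq, ?_⟩
  unfold Bt at *
  omega

/-- concatenation of geodesics with a nontrivial overlap -/
theorem CAT (hT : T.IsTree) {x y z w : V} (h1 : Bt T x y z) (h2 : Bt T y z w) (hyz : y ≠ z) :
    Bt T x z w ∧ Bt T x y w := by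
  obtain ⟨m, m1, m2, m3⟩ := GWP.exists_center hT x z w
  have hmz : m = z := by
    by_contra hne
    have hd1 : 1 ≤ T.dist z m := by
      rcases Nat.eq_zero_or_pos (T.dist z m) with h | h
      · exact absurd (dzero hT h).symm hne
      · exact h
    have hd2 : 1 ≤ T.dist z y := by
      rcases Nat.eq_zero_or_pos (T.dist z y) with h | h
      · exact absurd (dzero hT h).symm hyz
      · exact h
    obtain ⟨n, n1, n2⟩ := EXI hT z m 1 hd1
    obtain ⟨n', n1', n2'⟩ := EXI hT z y 1 hd2
    have hB1 : Bt T z n x := by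
      have hm1 : Bt T z m x := Bt.symm m1
      unfold Bt at *
      have t1 := dtri hT n m x
      have t2 := dtri hT z n x
      omega
    have hB2 : Bt T z n' x := by
      have hm1 : Bt T z y x := Bt.symm h1
      unfold Bt at *
      have t1 := dtri hT n' y x
      have t2 := dtri hT z n' x
      omega
    have hnn : n = n' := UNQ hT hB1 hB2 (by rw [n1, n1'])
    subst hnn
    have hB3 : Bt T z n w := by
      unfold Bt at *
      have t1 := dtri hT n m w
      have t2 := dtri hT z n w
      have c1 := dcomm (T := T) z m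
      omega
    unfold Bt at *
    have t1 := dtri hT y n w
    have c1 := dcomm (T := T) z y
    have c2 := dcomm (T := T) y n
    omega
  subst hmz
  have hxzw : Bt T x m w := m3
  refine ⟨hxzw, ?_⟩
  unfold Bt at *
  have t1 := dtri hT x y w
  have t2 := dtri hT x m w
  omega

theorem cen_spec (hT : T.IsTree) (x y z : V) :
    Bt T x (cen hT x y z) y ∧ Bt T y (cen hT x y z) z ∧ Bt T x (cen hT x y z) z :=
  Classical.choose_spec (GWP.exists_center hT x y z)

/-- points before the branching point stay -/
theorem CEN1 (hT : T.IsTree) {x y z p : V} (hp : Bt T x p y)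
    (h : T.dist x p ≤ T.dist x (cen hT x y z)) : Bt T x p z := by
  obtain ⟨c1, c2, c3⟩ := cen_spec hT x y z
  have h1 := (ORD hT hp c1 h).1
  unfold Bt at *
  have t1 := dtri hT p (cen hT x y z) z
  have t2 := dtri hT x p z
  omega

/-- points behind the branching point are cancelled -/
theorem CEN2 (hT : T.IsTree) {x y z p : V} (hp : Bt T x p y)
    (h : T.dist x (cen hT x y z) ≤ T.dist x p) : Bt T y p z := by
  obtain ⟨c1, c2, c3⟩ := cen_spec hT x y z
  have h1 := (ORD hT c1 hp h).2
  have h2 := Bt.symm h1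
  unfold Bt at *
  have t1 := dtri hT p (cen hT x y z) z
  have t2 := dtri hT y p z
  omega

theorem CEN3 (hT : T.IsTree) (x y z : V) : T.dist x (cen hT x y z) ≤ T.dist x z := by
  have := (cen_spec hT x y z).2.2
  unfold Bt at this
  omega

/-- the good step -/
theorem GOO (hT : T.IsTree) (o x p1 p2 p3 p4 z : V) (Λ : ℕ) (hΛ : 1 ≤ Λ)
    (a1 : T.dist x p1 = Λ) (a2 : T.dist x p2 = 2 * Λ) (a3 : T.dist x p3 = 3 * Λ)
    (a4 : T.dist x p4 = 4 * Λ) (b1 : T.dist p1 p2 = Λ) (b2 : T.dist p2 p3 = Λ)
    (b3 : T.dist p3 p4 = Λ) (hl : ¬ (T.dist o p1 + Λ = T.dist o x))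
    (hr : ¬ (Λ + T.dist p3 z = T.dist p4 z)) :
    Bt T o p1 z ∧ Bt T o p2 z ∧ T.dist o p2 = T.dist o p1 + Λ ∧
      T.dist o p1 + 2 * Λ ≤ T.dist o z ∧
      ∀ p, Bt T o p x → T.dist o p + Λ ≤ T.dist o x → Bt T o p z ∧ T.dist o p ≤ T.dist o p1 := by
  -- p_i on [x, p4]
  have t34 := dtri hT x p3 p4
  have t24 := dtri hT p2 p3 p4
  have t14 := dtri hT p1 p2 p4
  have tx2 := dtri hT x p2 p4
  have tx1 := dtri hT x p1 p4
  have B1 : Bt T x p1 p4 := by unfold Bt; omega
  have B2 : Bt T x p2 p4 := by unfold Bt; omega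
  have B3 : Bt T x p3 p4 := by unfold Bt; omega
  obtain ⟨q1, q2, q3⟩ := cen_spec hT x p4 o
  -- center of (x, p4, o) : q
  set q := cen hT x p4 o with hq
  have hxq : T.dist x q < Λ := by
    by_contra hcon
    push_neg at hcon
    have h1 := (ORD hT B1 q1 (by omega)).1
    apply hl
    unfold Bt at *
    have c1 := dcomm (T := T) x o
    have c2 := dcomm (T := T) o p1
    have s1 := dtri hT p1 q o
    have s2 := dtri hT x p1 o
    omega
  have O1 := ORD hT q1 B1 (by omega)
  have O2 := ORD hT q1 B2 (by omega)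
  have O3 := ORD hT q1 B3 (by omega)
  -- distances from o
  have key : ∀ i : V, Bt T x q i → Bt T q i p4 → T.dist o i = T.dist o q + T.dist q i := by
    intro i h1 h2
    unfold Bt at *
    have c1 := dcomm (T := T) x o
    have c2 := dcomm (T := T) o q
    have c3 := dcomm (T := T) p4 o
    have c4 := dcomm (T := T) p4 q
    have s1 := dtri hT o q i
    have s2 := dtri hT o i p4
    omega
  have k1 := key p1 O1.1 O1.2
  have k2 := key p2 O2.1 O2.2
  have k3 := key p3 O3.1 O3.2
  have k4 : T.dist o p4 = T.dist o q + T.dist q p4 := by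
    unfold Bt at *
    have c1 := dcomm (T := T) p4 o
    have c2 := dcomm (T := T) p4 q
    have c3 := dcomm (T := T) q o
    omega
  have e1 : T.dist o p1 + Λ = T.dist o p2 := by
    obtain ⟨o1, o1'⟩ := O1
    obtain ⟨o2, o2'⟩ := O2
    unfold Bt at *
    omega
  have e2 : T.dist o p2 + Λ = T.dist o p3 := by
    obtain ⟨o1, o1'⟩ := O3
    obtain ⟨o2, o2'⟩ := O2
    unfold Bt at *
    omega
  have e3 : T.dist o p3 + Λ = T.dist o p4 := by
    obtain ⟨o1, o1'⟩ := O3
    unfold Bt at *
    omega
  -- right side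
  obtain ⟨r1, r2, r3⟩ := cen_spec hT p4 o z
  set r := cen hT p4 o z with hr'
  have P3 : Bt T p4 p3 o := by
    unfold Bt
    rw [dcomm p4 p3, dcomm p3 o, dcomm p4 o]
    omega
  have hp4r : T.dist p4 r < Λ := by
    by_contra hcon
    push_neg at hcon
    have h1 := (ORD hT P3 r1 (by rw [dcomm p4 p3]; omega)).1
    apply hr
    unfold Bt at *
    have c1 := dcomm (T := T) p4 p3
    have s1 := dtri hT p3 r z
    have s2 := dtri hT p4 p3 z
    omega
  have O4 := ORD hT r1 P3 (by rw [dcomm p4 p3]; omega)
  -- p3 between o and z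
  have hz3 : Bt T o p3 z := by
    obtain ⟨o1, o2⟩ := O4
    unfold Bt at *
    have c1 := dcomm (T := T) r o
    have c2 := dcomm (T := T) p3 o
    have c3 := dcomm (T := T) r p3
    have s1 := dtri hT p3 r z
    have s2 := dtri hT o p3 z
    omega
  have hz2 : Bt T o p2 z := by
    unfold Bt at *
    have s1 := dtri hT p2 p3 z
    have s2 := dtri hT o p2 z
    omega
  have hz1 : Bt T o p1 z := by
    unfold Bt at *
    have s1 := dtri hT p1 p2 z
    have s2 := dtri hT o p1 z
    omega
  refine ⟨hz1, hz2, e1.symm, ?_, ?_⟩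
  · unfold Bt at hz3
    omega
  · intro p hp hpl
    have hqx : Bt T o q x := Bt.symm q3
    have hle : T.dist o p ≤ T.dist o q := by
      unfold Bt at hqx
      have c1 := dcomm (T := T) q x
      omega
    have h1 := (ORD hT hp hqx hle).1
    refine ⟨?_, by omega⟩
    unfold Bt at *
    have s1 := dtri hT p q z
    have s2 := dtri hT o p z
    have s3 := dtri hT q p1 z
    omega

/-- leaving a side -/
theorem SID (hT : T.IsTree) {y y' Q P : V} (h : Bt T y Q P) (h' : ¬ Bt T y' Q P) :
    Bt T y Q y' := by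
  obtain ⟨m1, m2, m3⟩ := cen_spec hT Q P y'
  set m := cen hT Q P y' with hm
  have hne : Q ≠ m := by
    intro he
    apply h'
    rw [← he] at m2
    exact Bt.symm m2
  have h1 : Bt T y Q m := by
    unfold Bt at *
    have s1 := dtri hT y Q m
    have s2 := dtri hT y m P
    omega
  exact (CAT hT h1 m3 hne).2

end pure

section code

variable {ι G V : Type*} [Fintype ι] [Group G] [MulAction G V] (C : Code ι G V)

/-- the action preserves distances -/
theorem Code.ds (g : G) (u v : V) : C.T.dist (g • u) (g • v) = C.T.dist u v :=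
  GWP.dist_smul' C.act C.tree g u v

theorem Code.bs (g : G) {u v z : V} : Bt C.T (g • u) (g • v) (g • z) ↔ Bt C.T u v z := by
  unfold Bt
  rw [C.ds, C.ds, C.ds]

theorem W_append (w : ℕ → G) (c m : List ι) : W C w (c ++ m) = W C w m * vv C w c m.length := by
  induction c with
  | nil => simp [vv]
  | cons s c ih =>
    rw [List.cons_append, W, ih, vv, List.length_append]
    rw [show c.length + m.length + 1 = m.length + c.length + 1 by omega]
    group

theorem full_append_acc (acc : List ι) (f : ι × List ι) (F : List (ι × List ι)) (b : List ι) :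
    (acc ++ f.2 ++ [f.1]) ++ full F b = acc ++ full (f :: F) b := by
  simp [full]

end code

end GWT
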