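import Pool.Agent.H55.GWP.TRD
import Pool.Agent.H55.GWP.TRE

/-!
Project GWT (MP_213ba5_lc, hand-in TreePatterns): definitions.

Lists of letters are NEWEST FIRST everywhere in the pivot part (`W`, `full`, `St`).
-/

set_option autoImplicit false

open Classical

namespace GWT

section pure

variable {V : Type*}

/-- `u` lies on the geodesic from `x` to `y`. -/
def Bt (T : SimpleGraph V) (x u y : V) : Prop := T.dist x u + T.dist u y = T.dist x y

/-- the centre of the triangle `x, y, z` -/
noncomputable def cen {T : SimpleGraph V} (hT : T.IsTree) (x y z : V) : V :=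
  Classical.choose (GWP.exists_center hT x y z)

end pure

/-- A code: `M ^ 4` group elements `c s` with `d(o, c s o) = Λ`, whose fourth powers do not
backtrack, and such that the orbits of the vertices `c s o` under the stabiliser of `o` are
pairwise different (`p3`). -/
structure Code (ι G V : Type*) [Fintype ι] [Group G] [MulAction G V] where
  T : SimpleGraph V
  tree : T.IsTree
  act : ∀ (g : G) (u v : V), T.Adj u v → T.Adj (g • u) (g • v)
  o : V
  c : ι → G
  Λ : ℕ
  M : ℕ
  Λ_pos : 1 ≤ Λ
  M_big : 32 ≤ M
  card : Fintype.card ι = M ^ 4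
  lam : 4 * (6 * Λ + 1) ≤ M ^ 3
  d1 : ∀ s, T.dist o (c s • o) = Λ
  d4 : ∀ s, T.dist o ((c s) ^ 4 • o) = 4 * Λ
  p3 : ∀ (s t : ι) (g : G), g • o = o → g • c s • o = c t • o → s = t

section code

variable {ι G V : Type*} [Fintype ι] [Group G] [MulAction G V] (C : Code ι G V)

/-- the distance -/
noncomputable abbrev Code.d (x y : V) : ℕ := C.T.dist x y

/-- `W [s_m, …, s_1] = w_0 σ_{s_1} w_1 σ_{s_2} w_2 … σ_{s_m} w_m`, where `σ_s = (c s) ^ 4`. -/
def W (w : ℕ → G) : List ι → G
  | [] => w 0
  | s :: l => W w l * C.c s ^ 4 * w (l.length + 1)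

/-- `W (c ++ m) = W m * vv c m.length` -/
def vv (w : ℕ → G) : List ι → ℕ → G
  | [], _ => 1
  | s :: c, k => vv w c k * C.c s ^ 4 * w (k + c.length + 1)

/-- A frame is a (tracked) letter together with the later letters up to the next tracked letter;
a stack is a list of frames, top first; `full F b` is the list of all letters. -/
def full : List (ι × List ι) → List ι → List ι
  | [], b => b
  | f :: F, b => f.2 ++ f.1 :: full F b

/-- position of the vertex `W m c_s o` (the start of the window of the tracked letter `s` with the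
letters `m` before it) -/
noncomputable def pos (w : ℕ → G) (s : ι) (m : List ι) : ℕ :=
  C.d C.o (W C w m • C.c s • C.o)

/-- The windows `[W m c_s o, W m c_s² o]` of the frames lie in this order on `[o, z]`, and the
highest one ends at distance at most `R` from `o`. -/
def Ok (w : ℕ → G) (z : V) : List (ι × List ι) → List ι → ℕ → Prop
  | [], _, _ => True
  | f :: F, b, R =>
    pos C w f.1 (full F b) + C.Λ ≤ R ∧
    Bt C.T C.o (W C w (full F b) • C.c f.1 • C.o) z ∧
    Bt C.T C.o (W C w (full F b) • (C.c f.1) ^ 2 • C.o) z ∧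
    C.d C.o (W C w (full F b) • (C.c f.1) ^ 2 • C.o) = pos C w f.1 (full F b) + C.Λ ∧
    Ok w z F b (pos C w f.1 (full F b))

/-- left-bad: `g c_s o` is the vertex of `[g o, o]` at distance `Λ` from `g o` -/
def LB (g : G) (s : ι) : Prop := C.d C.o (g • C.c s • C.o) + C.Λ = C.d C.o (g • C.o)

/-- right-bad: `c_s⁻¹ o` is the vertex of `[o, u o]` at distance `Λ` from `o` -/
def RB (s : ι) (u : G) : Prop := C.Λ + C.d ((C.c s)⁻¹ • C.o) (u • C.o) = C.d C.o (u • C.o)

/-- offset of a popped frame: it determines `d(g o, W m c_s o)` from `v = (W m σ_s)⁻¹ g` -/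
noncomputable def off (w : ℕ → G) (g : G) (s : ι) (m : List ι) : ℕ :=
  C.d (g • C.o) (W C w m • C.c s • C.o) + 3 * C.Λ -
    C.d C.o ((C.c s ^ 4)⁻¹ • (W C w m)⁻¹ • g • C.o)

/-- popping: all frames with `β < pos + 2Λ` are removed, their letters are added to `acc`; the
first component lists what has to be told: `inl (offset)` if `β ≤ pos`, `inr (letter)` otherwise -/
noncomputable def pop (w : ℕ → G) (g : G) (β : ℕ) : List (ι × List ι) → List ι → List ι →
    List (ℕ ⊕ ι) × (List (ι × List ι) × List ι)
  | [], acc, b => ([], [], acc ++ b)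
  | f :: F, acc, b =>
    if β < pos C w f.1 (full F b) + 2 * C.Λ then
      ((if β ≤ pos C w f.1 (full F b) then Sum.inl (off C w g f.1 (full F b))
        else Sum.inr f.1) :: (pop w g β F (acc ++ f.2 ++ [f.1]) b).1,
        (pop w g β F (acc ++ f.2 ++ [f.1]) b).2)
    else ([], (f.1, acc ++ f.2) :: F, b)

/-- start of a bad step: the remaining stack, the letters to be merged, and the letter of the top
frame, which is removed (and told) if the step is left-bad -/
noncomputable def ini (lb : Prop) (x : ι) :
    List (ι × List ι) → List (ι × List ι) × List ι × Option ι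
  | [] => ([], [x], none)
  | f :: F => if lb then (F, x :: (f.2 ++ [f.1]), some f.1) else (f :: F, [x], none)

/-- position of the branching point of `[o, W l o]` and `[o, W (x :: l) o]` -/
noncomputable def bet (w : ℕ → G) (x : ι) (l : List ι) : ℕ :=
  C.d C.o (cen C.tree C.o (W C w l • C.o) (W C w (x :: l) • C.o))

/-- good step -/
def Good (w : ℕ → G) (x : ι) (l : List ι) : Prop :=
  ¬ LB C (W C w l) x ∧ ¬ RB C x (w (l.length + 1))

/-- The state after reading `l` (newest letter first): the stack and the letters below it. -/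
noncomputable def St (w : ℕ → G) : List ι → List (ι × List ι) × List ι
  | [] => ([], [])
  | x :: l =>
    if Good C w x l then ((x, []) :: (St w l).1, (St w l).2)
    else (pop C w (W C w l) (bet C w x l) (ini (LB C (W C w l) x) x (St w l).1).1
      (ini (LB C (W C w l) x) x (St w l).1).2.1 (St w l).2).2

/-- messages -/
inductive Msg (ι : Type*) where
  | good : Msg ι
  | bad (lb : Bool) (lf : Option ι) (e : List (ℕ ⊕ ι)) : Msg ι

/-- the message of the step from `l` to `x :: l` -/
noncomputable def msg (w : ℕ → G) (x : ι) (l : List ι) : Msg ι :=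
  if Good C w x l then Msg.good
  else Msg.bad (decide (LB C (W C w l) x)) (ini (LB C (W C w l) x) x (St C w l).1).2.2
    (pop C w (W C w l) (bet C w x l) (ini (LB C (W C w l) x) x (St C w l).1).1
      (ini (LB C (W C w l) x) x (St C w l).1).2.1 (St C w l).2).1

/-- the mask: the tracked letters are forgotten -/
def mask (S : List (ι × List ι) × List ι) : List (List ι) × List ι := (S.1.map Prod.snd, S.2)

/-- weight of a message, `X = M ^ 3` -/
noncomputable def omg (X : ℝ) : Msg ι → ℝ
  | Msg.good => X
  | Msg.bad _ lf e => (X⁻¹) ^ (lf.toList.length + e.length)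

/-- valid messages (`Λ` = the length, here `K = 6 Λ`) -/
def Val (K : ℕ) : Msg ι → Prop
  | Msg.good => True
  | Msg.bad lb lf e => (lb = false → lf = none) ∧
      ∃ (us : List ℕ) (rs : List ι), e = us.map Sum.inl ++ rs.map Sum.inr ∧
        (∀ u ∈ us, u ≤ K) ∧ rs.length ≤ 2

/-- The trimmed segment of `g` has type `(Q, P)`: the vertices of `[o, g o]` at distance `t₁` from
`o` and at distance `t₂` from `g o` are mapped to `Q` and `P` by one element `h`. -/
def Tp (g : G) (t₁ t₂ : ℕ) (Q P : V) : Prop :=
  ∃ h : G, C.d (h • C.o) Q = t₁ ∧ C.d P (h • g • C.o) = t₂ ∧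
    C.d (h • C.o) (h • g • C.o) = t₁ + C.d Q P + t₂

/-- `Cmp θ x y`: there are vertices `P, Q` at distance `≥ θ`, `P` before `Q` on `[o, x o]`, and
`Q` before `P` on a translate `g [o, y o]`. -/
def Cmp (θ : ℕ) (x y : G) : Prop :=
  ∃ (g : G) (P Q : V), θ ≤ C.d P Q ∧
    C.d C.o P + C.d P Q + C.d Q (x • C.o) = C.d C.o (x • C.o) ∧
    C.d (g • C.o) Q + C.d Q P + C.d P (g • y • C.o) = C.d C.o (y • C.o)

/-- The geodesic `[o, v]` is cut into pieces, each a forward part of a translate `g [o, c o]`,
`c` in the list (top first). -/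
def Pc : List G → V → Prop
  | [], v => v = C.o
  | c :: σ, v => ∃ (g : G) (u : V), Bt C.T C.o u v ∧
      C.d (g • C.o) u + C.d u v + C.d v (g • c • C.o) = C.d C.o (c • C.o) ∧ Pc σ u

end code

/-! ### The machine of stacks of blocks -/

section machine

variable {B : Type*} (sh : B → Bool) (cmp : B → B → Bool)

/-- a claim is possible -/
def clm (b : B) (σ : List B) (r : ℕ) : Bool := sh b || (σ.take (r + 1)).any (fun c => cmp c b)

/-- one step: drop `r` blocks, push the new block -/
def stp (b : B) (cfg : List B × ℕ) : List (List B × ℕ) :=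
  (List.range (cfg.1.length + 1)).map (fun r =>
    (b :: cfg.1.drop r, cfg.2 + if clm sh cmp b cfg.1 r then 1 else 0))

/-- all configurations after reading a list of blocks (oldest first) -/
def runs (bs : List B) : List (List B × ℕ) :=
  bs.foldl (fun Cs b => Cs.flatMap (stp sh cmp b)) [([], 0)]

end machine

/-- the blocks of length `L` of a word -/
def blocks {S : Type*} (L : ℕ) (w : List S) : List (List S) :=
  (List.range (w.length / L)).map (fun i => (w.drop (L * i)).take L)

end GWT
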